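import Pool.Agent.H54.PM.Targets

/-!
# MP_def5ca_co, row PO2 (board pmf): the sides of the polygon
-/

set_option autoImplicit false

open scoped symmDiff

namespace Pool.Agent.H79.PMF

open Pool.Agent.H54.PM

theorem hull {p : ℕ} [NeZero p] {x : ℝ × ℝ} (hx : x ∈ PP p) :
    ∃ w : Fin p → ℝ, (∀ t, 0 ≤ w t) ∧ ∑ t, w t = 1 ∧ ∑ t, w t • wv t = x := by
  classical
  let S : Set (ℝ × ℝ) := {x | ∃ w : Fin p → ℝ, (∀ t, 0 ≤ w t) ∧ ∑ t, w t = 1 ∧
    ∑ t, w t • wv t = x}
  have hS : Convex ℝ S := by
    rintro y ⟨w, h1, h2, h3⟩ z ⟨v, h4, h5, h6⟩ a b ha hb hab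
    refine ⟨fun t => a * w t + b * v t, fun t => ?_, ?_, ?_⟩
    · exact add_nonneg (mul_nonneg ha (h1 t)) (mul_nonneg hb (h4 t))
    · rw [Finset.sum_add_distrib, ← Finset.mul_sum, ← Finset.mul_sum, h2, h5]
      linarith
    · rw [← h3, ← h6, Finset.smul_sum, Finset.smul_sum, ← Finset.sum_add_distrib]
      refine Finset.sum_congr rfl fun t _ => ?_
      rw [add_smul, mul_smul, mul_smul]
  have hsub : Set.range (wv (p := p)) ⊆ S := by
    rintro y ⟨t, rfl⟩
    refine ⟨fun s => if s = t then 1 else 0, fun s => ?_, ?_, ?_⟩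
    · change 0 ≤ if s = t then (1 : ℝ) else 0
      split_ifs <;> norm_num
    · simp
    · simp
  exact convexHull_min hsub hS hx

theorem el_aff {p : ℕ} (i : Fin p) : ∃ a b c : ℝ, ∀ x : ℝ × ℝ, el i x = a * x.1 + b * x.2 + c := by
  by_cases h : i.val + 1 < p
  · refine ⟨-(2 * i.val + 1), 1, i.val * (i.val + 1), fun x => ?_⟩
    unfold el
    rw [if_pos h]
    ring
  · refine ⟨(p : ℝ) - 1, -1, 0, fun x => ?_⟩
    unfold el
    rw [if_neg h]
    ring

theorem el_sum {p : ℕ} (i : Fin p) (w : Fin p → ℝ) (hw : ∑ t, w t = 1) :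
    el i (∑ t, w t • wv t) = ∑ t, w t * el i (wv t) := by
  obtain ⟨a, b, c, h⟩ := el_aff i
  have e1 : (∑ t, w t • wv t).1 = ∑ t, w t * (wv t).1 := by
    rw [Prod.fst_sum]
    rfl
  have e2 : (∑ t, w t • wv t).2 = ∑ t, w t * (wv t).2 := by
    rw [Prod.snd_sum]
    rfl
  rw [h, e1, e2]
  have e3 : ∀ t, w t * el i (wv t) = a * (w t * (wv t).1) + b * (w t * (wv t).2) + c * w t := by
    intro t
    rw [h]
    ring
  rw [Finset.sum_congr rfl fun t _ => e3 t, Finset.sum_add_distrib, Finset.sum_add_distrib,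
    ← Finset.mul_sum, ← Finset.mul_sum, ← Finset.mul_sum, hw]
  ring

theorem pf_PO2 (h : T_PO1) : T_PO2 := by
  intro p _ hp x hx
  obtain ⟨w, hw0, hw1, hwx⟩ := hull hx
  have hv := (h p hp).1
  have h1 : (1 : Fin p) ≠ 0 := by
    intro hh
    have := congrArg Fin.val hh
    rw [Fin.val_one', Nat.mod_eq_of_lt (by omega)] at this
    simp at this
  have h2 : (1 : Fin p) + 1 ≠ 0 := by
    intro hh
    have := congrArg Fin.val hh
    rw [Fin.val_add, Fin.val_one', Nat.mod_eq_of_lt (show 1 < p by omega),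
      Nat.mod_eq_of_lt (show 1 + 1 < p by omega)] at this
    simp at this
  have hz : ∀ i : Fin p, el i x = 0 → ∀ t, w t ≠ 0 → t = i ∨ t = i + 1 := by
    intro i hi t ht
    rw [← hwx, el_sum i w hw1] at hi
    have h3 := (Finset.sum_eq_zero_iff_of_nonneg fun t _ =>
      mul_nonneg (hw0 t) (hv i t).1).1 hi t (Finset.mem_univ t)
    rcases mul_eq_zero.1 h3 with h4 | h4
    · exact absurd h4 ht
    · exact (hv i t).2.1 h4
  have hone : ∀ i : Fin p, (∀ t, w t ≠ 0 → t = i) → x = wv i := by
    intro i hi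
    have h3 : ∀ t, t ≠ i → w t = 0 := fun t ht => by
      by_contra h4
      exact ht (hi t h4)
    have h4 : w i = 1 := by
      rw [← hw1, Finset.sum_eq_single i (fun t _ ht => h3 t ht) fun h => absurd (Finset.mem_univ i) h]
    rw [← hwx, Finset.sum_eq_single i (fun t _ ht => by rw [h3 t ht, zero_smul])
      fun h => absurd (Finset.mem_univ i) h, h4, one_smul]
  constructor
  · intro i
    have hne : i ≠ i + 1 := fun hh => h1 (left_eq_add.1 hh)
    constructor
    · intro hi
      have h3 := hz i hi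
      have h4 : ∀ t, t ∉ ({i, i + 1} : Finset (Fin p)) → w t = 0 := by
        intro t ht
        by_contra h5
        rcases h3 t h5 with h6 | h6 <;> simp [h6] at ht
      have h5 : w i + w (i + 1) = 1 := by
        rw [← Finset.sum_pair hne, ← hw1]
        exact Finset.sum_subset (Finset.subset_univ _) fun t _ ht => h4 t ht
      have h6 : w i • wv i + w (i + 1) • wv (i + 1) = x := by
        rw [← Finset.sum_pair (f := fun t => w t • wv t) hne, ← hwx]
        exact Finset.sum_subset (Finset.subset_univ _) fun t _ ht => by rw [h4 t ht, zero_smul]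
      exact ⟨w i, w (i + 1), hw0 _, hw0 _, h5, h6⟩
    · rintro ⟨a, b, -, -, hab, rfl⟩
      obtain ⟨α, β, γ, he⟩ := el_aff i
      have h3 : el i (wv i) = 0 := (hv i i).2.2 (Or.inl rfl)
      have h4 : el i (wv (i + 1)) = 0 := (hv i (i + 1)).2.2 (Or.inr rfl)
      have h5 : el i (a • wv i + b • wv (i + 1)) = a * el i (wv i) + b * el i (wv (i + 1)) := by
        rw [he, he, he]
        simp only [Prod.fst_add, Prod.snd_add, Prod.smul_fst, Prod.smul_snd, smul_eq_mul]
        linear_combination (-γ) * hab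
      rw [h5, h3, h4]
      ring
  · intro i j hij hi hj
    have h3 := hz i hi
    have h4 := hz j hj
    obtain ⟨t, ht⟩ : ∃ t, w t ≠ 0 := by
      by_contra h5
      push Not at h5
      rw [Finset.sum_eq_zero fun t _ => h5 t] at hw1
      exact zero_ne_one hw1
    have hs1 : ∀ k : Fin p, k ≠ k + 1 := fun k hh => h1 (left_eq_add.1 hh)
    have hs2 : ∀ k : Fin p, k ≠ k + 1 + 1 := fun k hh => by
      rw [add_assoc] at hh
      exact h2 (left_eq_add.1 hh)
    rcases h3 t ht with h5 | h5 <;> rcases h4 t ht with h6 | h6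
    · exact absurd (h5.symm.trans h6) hij
    · -- i = j + 1
      have e : i = j + 1 := h5.symm.trans h6
      refine Or.inr ⟨e, hone i fun s hs => ?_⟩
      rcases h3 s hs with h7 | h7
      · exact h7
      · rcases h4 s hs with h8 | h8
        · exfalso
          have : j = j + 1 + 1 := by rw [← e, ← h7, h8]
          exact hs2 j this
        · rw [h8, e]
    · -- j = i + 1
      have e : j = i + 1 := h6.symm.trans h5
      refine Or.inl ⟨e, hone j fun s hs => ?_⟩
      rcases h4 s hs with h7 | h7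
      · exact h7
      · rcases h3 s hs with h8 | h8
        · exfalso
          have : i = i + 1 + 1 := by rw [← e, ← h7, h8]
          exact hs2 i this
        · rw [h8, e]
    · exact absurd (add_right_cancel (h5.symm.trans h6)) hij

end Pool.Agent.H79.PMF
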